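import Mathlib
import Pool.Agent.H25.SSep

set_option autoImplicit false

namespace Pool.Agent.Results.MP_656a26_gt.Free

open TopologicalSpace

/-- `G` is S-separable: for every Hausdorff topological group `H` whose closed subgroups are all
separable, every closed subgroup of `G × H` is separable. -/
def SSeparable (G : Type) [TopologicalSpace G] [Group G] : Prop :=
  ∀ (H : Type) [TopologicalSpace H] [Group H] [IsTopologicalGroup H] [T2Space H],
    (∀ K : Subgroup H, IsClosed (K : Set H) → SeparableSpace K) →
    ∀ L : Subgroup (G × H), IsClosed (L : Set (G × H)) → SeparableSpace L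

/-- The finest group topology on the free group over `[0,1]` that restricts to the Euclidean
topology exists, and with it the free group is not S-separable. -/
theorem result : ∃ τ : GroupTopology (FreeGroup unitInterval),
    IsLeast {g : GroupTopology (FreeGroup unitInterval) |
      induced FreeGroup.of g.toTopologicalSpace = (inferInstance : TopologicalSpace unitInterval)} τ ∧
    ¬ @SSeparable (FreeGroup unitInterval) τ.toTopologicalSpace _ := by
  let π : FreeGroup unitInterval →* Multiplicative ℝ := FreeGroup.lift fun x => .ofAdd x.1
  let g : GroupTopology (FreeGroup unitInterval) :=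
    ⟨induced π inferInstance, topologicalGroup_induced π⟩
  let S := {g : GroupTopology (FreeGroup unitInterval) |
    induced FreeGroup.of g.toTopologicalSpace = (inferInstance : TopologicalSpace unitInterval)}
  have hg : g ∈ S := by
    change induced _ (induced _ _) = _
    rw [induced_compose, show π ∘ FreeGroup.of = fun x => .ofAdd x.1 from
      funext fun x => FreeGroup.lift_apply_of]
    rfl
  refine ⟨sInf S, ⟨?_, fun _ h => sInf_le h⟩, fun h => ?_⟩
  · change induced _ _ = _
    rw [GroupTopology.toTopologicalSpace_sInf, induced_sInf]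
    refine le_antisymm (sInf_le ⟨_, ⟨g, hg, rfl⟩, hg⟩) (le_sInf ?_)
    rintro _ ⟨_, ⟨t, ht, rfl⟩, rfl⟩
    exact ht.ge
  · let _ := (sInf S).toTopologicalSpace
    obtain ⟨H, _, _, _, _, h1, L, h2, h3⟩ := Pool.Agent.H25.SSep.main (FreeGroup unitInterval) π
      (continuous_iff_le_induced.2 (show sInf S ≤ g from sInf_le hg)) fun t => ⟨
        FreeGroup.of 1 ^ ⌊t.toAdd⌋ * FreeGroup.of ⟨Int.fract t.toAdd, Int.fract_nonneg _,
          (Int.fract_lt_one _).le⟩, by
        simp [π, ← ofAdd_zsmul, ← ofAdd_add]⟩
    exact h3 (h H (fun K _ => h1 K) L h2)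

end Pool.Agent.Results.MP_656a26_gt.Free
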